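import Pool.Agent.Helper515.EGe

set_option autoImplicit false

namespace Pool.Agent.Results.MP_6fbcf6_al.HalfEggert

open Module

universe u v

/-- Eggert's inequality with the factor `p` replaced by `c / 2`, where `c = p + 1` for `p ≠ 3` and
`c = 5` for `p = 3`; in particular the factor is `3/2` for `p = 2`, `5/2` for `p = 3` and
`(p + 1) / 2` for `p ≥ 5`. It holds over every field of characteristic `p`. -/
theorem result (p : ℕ) (hp : p.Prime) (F : Type u) [Field F] [CharP F p]
    (A : Type v) [CommRing A] [Algebra F A] [FiniteDimensional F A] (I : Ideal A)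
    (hI : IsNilpotent I) :
    (if p = 3 then 5 else p + 1) *
        Module.finrank F (Submodule.span F ((fun x : A => x ^ p) '' (I : Set A))) ≤
      2 * Module.finrank F (Submodule.restrictScalars F I) := by
  have : Fact p.Prime := ⟨hp⟩
  exact Pool.Agent.Helper515.EG.main_unital F p A I hI

end Pool.Agent.Results.MP_6fbcf6_al.HalfEggert
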